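import Pool.Agent.T9h36.N1.Spec
import Pool.Agent.T9h95.NK.Loc0
import Pool.Agent.T9h71.NK.M0

/-!
# Project NK, slope 1: piece N6
-/

set_option autoImplicit false

open Set
open scoped RealInnerProductSpace

namespace Pool.Agent.T9h41.N1

open Pool.Agent.T9h98.DC Pool.Agent.T9h98.NK Pool.Agent.T9h44.NK Pool.Agent.T9h36.N1
open Pool.Agent.T9h48.NK (face_image)
open Pool.Agent.T9h95.NK (trn ip)
open Pool.Agent.T9h71.NK (vx_fun adj_mem)

theorem cor_symm {d : ℕ} {P : Set (E d)} {v w y : E d} (h : Cor P v w y) : Cor P v y w := by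
  obtain ⟨h1, h2, h3, T, hT, hd, hv, hw, hy⟩ := h
  exact ⟨h2, h1, h3.symm, T, hT, hd, hv, hy, hw⟩

theorem adj_map {d : ℕ} {P : Set (E d)} (h : E d ≃ₗᵢ[ℝ] E d) (hP : h '' P = P) {v y : E d}
    (ha : Adj P v y) : Adj P (h v) (h y) := by
  refine ⟨fun e => ha.1 (h.injective e), ?_⟩
  have := face_image h hP ha.2
  have e3 : h '' segment ℝ v y = segment ℝ (h v) (h y) :=
    image_segment ℝ h.toLinearEquiv.toLinearMap.toAffineMap v y
  rwa [e3] at this

theorem dm_map {d : ℕ} (h : E d ≃ₗᵢ[ℝ] E d) (T : Set (E d)) : dm (h '' T) = dm T := by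
  unfold dm
  have h1 : vectorSpan ℝ (h '' T) = (vectorSpan ℝ T).map h.toLinearEquiv.toLinearMap := by
    have := AffineMap.map_vectorSpan h.toLinearEquiv.toLinearMap.toAffineMap (s := T)
    exact this.symm
  rw [h1]
  exact LinearEquiv.finrank_map_eq h.toLinearEquiv _

theorem cor_map {d : ℕ} {P : Set (E d)} (h : E d ≃ₗᵢ[ℝ] E d) (hP : h '' P = P) {v w y : E d}
    (hc : Cor P v w y) : Cor P (h v) (h w) (h y) := by
  obtain ⟨h1, h2, h3, T, hT, hd, hv, hw, hy⟩ := hc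
  exact ⟨adj_map h hP h1, adj_map h hP h2, fun e => h3 (h.injective e), h '' T,
    face_image h hP hT, (dm_map h T).trans hd, mem_image_of_mem _ hv, mem_image_of_mem _ hw,
    mem_image_of_mem _ hy⟩

/-- vertex-transitivity from `PT 1` -/
theorem tr1 {d : ℕ} {Q : Set (E d)} {K : Subgroup (E d ≃ₗᵢ[ℝ] E d)} (h : PT 1 K Q) :
    ∀ x x', Vx Q x → Vx Q x' → ∃ k ∈ K, k x = x' := by
  intro x x' hx hx'
  have mk : ∀ z, Vx Q z → ∃ Φ : Ch Q 1, ∀ i, Φ.face i = {z} := by
    intro z hz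
    refine ⟨⟨fun _ => {z}, fun _ => hz, fun i => ?_, fun _ _ _ => le_rfl⟩, fun _ => rfl⟩
    have h1 : (i : ℕ) = 0 := by omega
    rw [h1]
    unfold dm
    rw [vectorSpan_singleton, finrank_bot]
  obtain ⟨Φ, hΦ⟩ := mk x hx
  obtain ⟨Ψ, hΨ⟩ := mk x' hx'
  obtain ⟨k, hk, h1⟩ := h Φ Ψ
  refine ⟨k, hk, ?_⟩
  have h2 := h1 0
  rw [hΦ, hΨ, image_singleton] at h2
  exact singleton_injective h2

/-- three neighbours -/
theorem three (hFA : S_FACES) (hCONE : S_CONE) {d : ℕ} (hd : 2 ≤ d) {P : Set (E (d + 1))}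
    (hP : IsPolytope P) {w : E (d + 1)} (hw : Vx P w) :
    ∃ a b c, Adj P w a ∧ Adj P w b ∧ Adj P w c ∧ a ≠ b ∧ a ≠ c ∧ b ≠ c := by
  classical
  obtain ⟨-, -, hfin, -, -, -, -, -, fa9, -⟩ := hFA (d + 1) P hP.1
  have hF : {y | Adj P w y}.Finite := hfin.subset fun y hy => (fa9 w y hy).2.1
  have hmem : ∀ y, y ∈ hF.toFinset ↔ Adj P w y := fun y => by
    rw [Finite.mem_toFinset]; rfl
  have key : 2 < hF.toFinset.card := by
    by_contra hcon
    push Not at hcon
    have hwP : w ∈ P := (vx_fun hw).1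
    have h1 : vectorSpan ℝ P ≤ Submodule.span ℝ
        ((hF.toFinset.image fun y => y - w : Finset (E (d + 1))) : Set (E (d + 1))) := by
      rw [vectorSpan_eq_span_vsub_set_right ℝ hwP, Submodule.span_le]
      rintro _ ⟨x, hx, rfl⟩
      obtain ⟨S, c, hS, hsum⟩ := hCONE d P w hP hw x hx
      change x - w ∈ _
      rw [hsum]
      refine Submodule.sum_mem _ fun y hy => Submodule.smul_mem _ _ (Submodule.subset_span ?_)
      rw [Finset.mem_coe, Finset.mem_image]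
      exact ⟨y, (hmem y).2 (hS y hy).1, rfl⟩
    have h2 : vectorSpan ℝ P = ⊤ := by
      have h3 : affineSpan ℝ P = ⊤ := by
        rw [eq_top_iff, ← isOpen_interior.affineSpan_eq_top hP.2]
        exact affineSpan_mono ℝ interior_subset
      rw [← direction_affineSpan, h3, AffineSubspace.direction_top]
    rw [h2, top_le_iff] at h1
    have h4 := finrank_span_finset_le_card (R := ℝ) (hF.toFinset.image fun y => y - w)
    rw [Set.finrank, h1, finrank_top, finrank_euclideanSpace_fin] at h4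
    have h5 := Finset.card_image_le (s := hF.toFinset) (f := fun y => y - w)
    omega
  obtain ⟨a, ha, b, hb, c, hc, h1, h2, h3⟩ := Finset.two_lt_card.1 key
  exact ⟨a, b, c, (hmem a).1 ha, (hmem b).1 hb, (hmem c).1 hc, h1, h2, h3⟩

/-- the cone bound for all pairs of vertices -/
theorem pairs (hCONE : S_CONE) {d : ℕ} {Q : Set (E (d + 1))} (hQ : IsPolytope Q) {ρ κ : ℝ}
    (hκ : κ ≤ ρ) (hn : ∀ x, Vx Q x → ⟪x, x⟫ = ρ) (ha : ∀ x x', Adj Q x x' → Vx Q x → ⟪x, x'⟫ ≤ κ) :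
    ∀ x x', Vx Q x → Vx Q x' → x ≠ x' → ⟪x, x'⟫ ≤ κ := by
  intro v w hv hw hvw
  obtain ⟨hwP, l, hl⟩ := vx_fun hw
  obtain ⟨S, b, hS, hsum⟩ := hCONE d Q v hQ hv w hwP
  have hL : 1 ≤ ∑ y ∈ S, b y := by
    by_contra hL
    push Not at hL
    have h3 : l w - l v = ∑ y ∈ S, b y * (l y - l v) := by
      rw [← map_sub, hsum, map_sum]
      refine Finset.sum_congr rfl fun y _ => ?_
      rw [map_smul, map_sub, smul_eq_mul]
    have h4 : ∑ y ∈ S, b y * (l y - l v) ≤ ∑ y ∈ S, b y * (l w - l v) := by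
      refine Finset.sum_le_sum fun y hy => mul_le_mul_of_nonneg_left ?_ (hS y hy).2
      have hyP := (adj_mem (hS y hy).1).2
      by_cases hyw : y = w
      · rw [hyw]
      · have := hl y hyP hyw
        linarith
    rw [← Finset.sum_mul] at h4
    have h5 : l v < l w := hl v (vx_fun hv).1 hvw
    nlinarith
  have h2 : ⟪v, w - v⟫ ≤ ∑ y ∈ S, b y * (κ - ρ) := by
    rw [hsum, inner_sum]
    refine Finset.sum_le_sum fun y hy => ?_
    rw [real_inner_smul_right, inner_sub_right, hn v hv]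
    have := ha v y (hS y hy).1 hv
    exact mul_le_mul_of_nonneg_left (by linarith) (hS y hy).2
  rw [inner_sub_right, hn v hv, ← Finset.sum_mul] at h2
  nlinarith

theorem n6 : S_FACES → S_VF → S_EDGE → S_PLANE → S_NB → S_CONE → S_N6 := by
  intro hFA hVF hEDGE hPLANE hNB hCONE D P H w n v ι g hD hP hPr hdat hwv hLoc hPT
  obtain ⟨hwx, hSup, hn, hOrt, hfix⟩ := hdat
  have htr := tr1 hPT
  have htrans := trn hNB hP hPr hwx hSup hn hOrt hfix htr
  have hD0 : (0 : ℝ) < D := by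
    have : 0 < D := by omega
    exact_mod_cast this
  have hg1 : g < 1 := hLoc.glt
  have hg0 : 13 / 15 < g := by
    have h1 := hLoc.ggt
    have h2 : (2 : ℝ) / D ≤ 2 / 15 := by
      apply div_le_div_of_nonneg_left (by norm_num) (by norm_num)
      exact_mod_cast hD
    linarith
  -- all neighbours of `w` have corners with factor `g`
  have hcor : ∀ v' y, Adj P w v' → Cor P v' w y →
      ⟪w - v', y - v'⟫ = g * (‖w - v'‖ * ‖y - v'‖) := by
    intro v' y hv' hc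
    obtain ⟨h, hh, hhw, hhv⟩ := htrans v v' hwv hv'
    have hsP : h.symm '' P = P := hPr h.symm (H.inv_mem hh)
    have h1 := cor_map h.symm hsP hc
    have e1 : h.symm v' = v := by rw [← hhv, h.symm_apply_apply]
    have e2 : h.symm w = w := by
      conv_lhs => rw [← hhw]
      exact h.symm_apply_apply w
    rw [e1, e2] at h1
    have h2 := hLoc.cor _ _ h1
    have e3 : w - v' = h (w - v) := by rw [map_sub, hhw, hhv]
    have e4 : y - v' = h (h.symm y - v) := by rw [map_sub, h.apply_symm_apply, hhv]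
    rw [e3, e4, h.inner_map_map, h.norm_map, h.norm_map]
    exact h2
  have hlen : ∀ y y', Adj P w y → Adj P w y' → ‖y - w‖ = ‖y' - w‖ := by
    intro y y' hy hy'
    obtain ⟨h, hh, hhw, hhv⟩ := htrans y y' hy hy'
    have e3 : y' - w = h (y - w) := by rw [map_sub, hhw, hhv]
    rw [e3, h.norm_map]
  -- corners at `w`
  have hw2 : ∀ y z, Cor P w y z → ⟪y - w, z - w⟫ ≤ (1 - 2 * g ^ 2) * ‖y - w‖ ^ 2 := by
    intro y z hc
    obtain ⟨hwy, hwz, hyz, -⟩ := id hc
    obtain ⟨u, hu, ⟨α, β, hα, hβ, hαβ⟩, -⟩ := hEDGE D P hP w y z hc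
    have hzP : z ∈ P := (adj_mem hwz).2
    have hz : z - y = (1 + α / β - 1 / β) • (w - y) + (1 / β) • (u - y) := by
      have e4 : z - w = (1 / β) • ((u - w) - α • (y - w)) := by
        rw [hαβ, add_sub_cancel_left, smul_smul, one_div_mul_cancel hβ.ne', one_smul]
      calc z - y = (z - w) + (w - y) := by abel
        _ = (1 / β) • ((u - w) - α • (y - w)) + (w - y) := by rw [e4]
        _ = _ := by module
    obtain ⟨ha, hb⟩ := (hPLANE D P hP y w u hu).2 z hzP _ _ hz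
    have h1 := hcor y u hwy hu
    set A := w - y with hA
    set B := u - y with hB
    set a := 1 + α / β - 1 / β with ha'
    set b := 1 / β with hb'
    have hA0 := norm_nonneg A
    have hB0 := norm_nonneg B
    have h2 : g * (‖z - y‖ * ‖A‖) ≤ ⟪z - y, A⟫ := by
      have h3 : ‖z - y‖ ≤ a * ‖A‖ + b * ‖B‖ := by
        rw [hz]
        refine (norm_add_le _ _).trans (le_of_eq ?_)
        rw [norm_smul, norm_smul, Real.norm_eq_abs, Real.norm_eq_abs, abs_of_nonneg ha,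
          abs_of_nonneg hb]
      have h4 : ⟪z - y, A⟫ = a * ‖A‖ ^ 2 + b * (g * (‖A‖ * ‖B‖)) := by
        rw [hz, inner_add_left, real_inner_smul_left, real_inner_smul_left,
          real_inner_self_eq_norm_sq, real_inner_comm, h1]
      rw [h4]
      have h5 : g * (‖z - y‖ * ‖A‖) ≤ g * ((a * ‖A‖ + b * ‖B‖) * ‖A‖) := by
        apply mul_le_mul_of_nonneg_left _ (by linarith)
        exact mul_le_mul_of_nonneg_right h3 hA0
      have h6 : g * (a * ‖A‖ ^ 2) ≤ a * ‖A‖ ^ 2 := by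
        have := mul_nonneg ha (sq_nonneg ‖A‖)
        nlinarith
      nlinarith
    -- the triangle
    set p := y - w with hp
    set q := z - w with hq
    have e1 : z - y = q - p := by rw [hq, hp]; abel
    have e2 : A = -p := by rw [hA, hp]; abel
    have hlq : ‖q‖ = ‖p‖ := hlen z y hwz hwy
    rw [e1, e2, norm_neg, inner_neg_right, inner_sub_left, real_inner_self_eq_norm_sq,
      real_inner_comm] at h2
    have h7 : ‖q - p‖ ^ 2 = 2 * (‖p‖ ^ 2 - ⟪p, q⟫) := by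
      rw [@norm_sub_sq_real, hlq, real_inner_comm]; ring
    have h8 : 0 < ‖q - p‖ := by
      rw [norm_pos_iff, sub_ne_zero]
      intro h
      apply hyz
      have : z = y := sub_left_injective h
      exact this.symm
    have hp0 : 0 ≤ ‖p‖ := norm_nonneg p
    -- `g ‖q - p‖ ‖p‖ ≤ X = ‖q - p‖² / 2`
    have h9 : 2 * (g * ‖p‖) ≤ ‖q - p‖ := by
      have : g * (‖q - p‖ * ‖p‖) ≤ ‖q - p‖ ^ 2 / 2 := by
        rw [h7]; linarith
      have h10 : (2 * (g * ‖p‖)) * ‖q - p‖ ≤ ‖q - p‖ * ‖q - p‖ := by nlinarith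
      exact le_of_mul_le_mul_right h10 h8
    have h11 : (2 * (g * ‖p‖)) ^ 2 ≤ ‖q - p‖ ^ 2 :=
      pow_le_pow_left₀ (by positivity) h9 2
    rw [h7] at h11
    nlinarith
  -- the figure
  obtain ⟨D', rfl⟩ : ∃ D', D = D' + 1 := ⟨D - 1, by omega⟩
  obtain ⟨hQ, -⟩ := hVF (D' + 1) P w n ι hP hwx hSup hn hOrt
  obtain ⟨n1, n2, n3, n4⟩ := hNB (D' + 1) P w n ι hP hwx hSup hn hOrt
  obtain ⟨x0, hx0, hvx0⟩ := n1 v hwv
  set ρ : ℝ := ⟪x0, x0⟫ with hρ
  have hnorm : ∀ x, Vx (fig w n ι P) x → ⟪x, x⟫ = ρ := by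
    intro x hx
    obtain ⟨k, -, hk⟩ := htr x0 x hx0 hx
    rw [← hk, k.inner_map_map]
  obtain ⟨a, b, c, haw, hbw, hcw, hab, hac, hbc⟩ := three hFA hCONE (by omega) hP hwx
  obtain ⟨xa, hxa, hpa⟩ := n1 a haw
  obtain ⟨xb, hxb, hpb⟩ := n1 b hbw
  obtain ⟨xc, hxc, hpc⟩ := n1 c hcw
  have hxab : xa ≠ xb := fun h => hab ((n3 a b xa xb haw hbw hpa hpb).1 h)
  have hxac : xa ≠ xc := fun h => hac ((n3 a c xa xc haw hcw hpa hpc).1 h)
  have hxbc : xb ≠ xc := fun h => hbc ((n3 b c xb xc hbw hcw hpb hpc).1 h)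
  have hρ0 : 0 < ρ := by
    rcases (real_inner_self_nonneg (x := x0)).eq_or_lt with h | h
    · exfalso
      have z : ∀ x, Vx (fig w n ι P) x → x = 0 := by
        intro x hx
        have := hnorm x hx
        rw [hρ, ← h] at this
        exact inner_self_eq_zero.1 this
      exact hxab ((z xa hxa).trans (z xb hxb).symm)
    · exact h
  have hn2 : 0 < ‖n‖ ^ 2 := by positivity
  have hadj : ∀ x x', Adj (fig w n ι P) x x' → Vx (fig w n ι P) x → ⟪x, x'⟫ ≤ (1 - 2 * g ^ 2) * ρ := by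
    intro x x' hxx' hx
    have hx' : Vx (fig w n ι P) x' := ((hFA (D' + 1) _ hQ.1).2.2.2.2.2.2.2.2.1 x x' hxx').2.1
    obtain ⟨y, hy, t, ht, hyt⟩ := n2 x hx
    obtain ⟨y', hy', t', ht', hyt'⟩ := n2 x' hx'
    have h1 := (n4 y y' x x' hy hy' ⟨t, ht, hyt⟩ ⟨t', ht', hyt'⟩).1 hxx'
    have h2 := hw2 y y' ⟨hy, hy', h1.1, h1.2⟩
    have e1 := ip w n ι hOrt hyt hyt
    have e2 := ip w n ι hOrt hyt' hyt'
    have e3 := ip w n ι hOrt hyt hyt'
    rw [hnorm x hx] at e1
    rw [hnorm x' hx'] at e2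
    rw [real_inner_self_eq_norm_sq] at e1 e2
    have e4 := hlen y y' hy hy'
    have hpos : 0 < ‖n‖ ^ 2 + ρ := by positivity
    have e5 : t * t = t' * t' := by
      rw [e4, e2] at e1
      exact (mul_right_cancel₀ hpos.ne' e1).symm
    have e6 : t = t' := by nlinarith
    rw [← e6] at e3
    rw [e3, e1] at h2
    have htt : 0 < t * t := by positivity
    have h3 : t * t * (‖n‖ ^ 2 + ⟪x, x'⟫) ≤ t * t * ((1 - 2 * g ^ 2) * (‖n‖ ^ 2 + ρ)) := by
      linarith
    have h4 := le_of_mul_le_mul_left h3 htt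
    have h5 : 0 ≤ g ^ 2 * ‖n‖ ^ 2 := by positivity
    nlinarith
  have hκ : (1 - 2 * g ^ 2) * ρ ≤ ρ := by
    have : 0 ≤ g ^ 2 * ρ := by positivity
    nlinarith
  have hall := pairs hCONE hQ hκ hnorm hadj
  have b1 := hall xa xb hxa hxb hxab
  have b2 := hall xa xc hxa hxc hxac
  have b3 := hall xb xc hxb hxc hxbc
  have hsum : 0 ≤ ⟪xa + xb + xc, xa + xb + xc⟫ := real_inner_self_nonneg
  have hexp : ⟪xa + xb + xc, xa + xb + xc⟫ =
      3 * ρ + 2 * (⟪xa, xb⟫ + ⟪xa, xc⟫ + ⟪xb, xc⟫) := by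
    simp only [inner_add_left, inner_add_right]
    rw [hnorm xa hxa, hnorm xb hxb, hnorm xc hxc, real_inner_comm xa xb, real_inner_comm xa xc,
      real_inner_comm xb xc]
    ring
  have hg2 : 3 / 4 < g ^ 2 := by nlinarith
  nlinarith

end Pool.Agent.T9h41.N1
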